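import Mathlib
import Pool.Agent.MP_c57c58_al.H48.Basic

/-! For every prime `p`, a finite `p`-group `P = A B` with `A` abelian, `B` of class two and
`A ∩ B = 1`, in which `⟨A, [B,B]⟩` is not of the form `A B₀` with `B₀ ≤ B` abelian. -/

namespace Pool.Agent.Results.MP_c57c58_al.Counterexample

open Pool.Agent.MP_c57c58_al.H48
open scoped commutatorElement

theorem result (p : ℕ) (hp : p.Prime) :
    ∃ (P : Type) (_ : Group P) (_ : Finite P), IsPGroup p P ∧
      ∃ A B : Subgroup P,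
        (∀ g : P, ∃ a ∈ A, ∃ b ∈ B, g = a * b) ∧
        IsMulCommutative A ∧
        Group.nilpotencyClass B = 2 ∧
        A ⊓ B = ⊥ ∧
        ∀ B₀ : Subgroup P, B₀ ≤ B → IsMulCommutative B₀ →
          ¬ ∀ g : P, g ∈ A ⊔ ⁅B, B⁆ ↔ ∃ a ∈ A, ∃ b ∈ B₀, g = a * b := by
  have : Fact p.Prime := ⟨hp⟩
  have hfin : Finite (G (ZMod p)) := Finite.of_equiv _ (equivFun (ZMod p)).symm
  refine ⟨G (ZMod p), inferInstance, hfin, ?_, A (ZMod p), B (ZMod p), ?_, ?_, ?_, ?_, ?_⟩
  · apply IsPGroup.of_card (n := 23)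
    rw [Nat.card_congr (equivFun (ZMod p))]
    simp
  · intro g
    exact ⟨g.pa, pa_mem g, g.pb, pb_mem g, pa_mul_pb g⟩
  · exact ⟨⟨fun x y => Subtype.ext (A_comm x.2 y.2)⟩⟩
  · have htop : Subgroup.upperCentralSeries (B (ZMod p)) 2 = ⊤ := by
      rw [eq_top_iff]
      intro x _
      rw [Subgroup.mem_upperCentralSeries_succ_iff]
      intro y
      rw [Subgroup.upperCentralSeries_one, Subgroup.mem_center_iff]
      intro z
      apply Subtype.ext
      have h1 : ((⁅x, y⁆ : B (ZMod p)) : G (ZMod p)) = G.com (x : G (ZMod p)) y := by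
        rw [commutatorElement_def]
        push_cast
        rw [com_spec x.2 y.2]
        group
      push_cast
      rw [h1]
      exact (com_central _ _ z.2).symm
    have : Group.IsNilpotent (B (ZMod p)) := ⟨⟨2, htop⟩⟩
    have h2 := Subgroup.upperCentralSeries_eq_top_iff_nilpotencyClass_le.mp htop
    have h1 : ¬ Group.nilpotencyClass (B (ZMod p)) ≤ 1 := by
      intro h
      have h3 := Subgroup.upperCentralSeries_eq_top_iff_nilpotencyClass_le.mpr h
      rw [Subgroup.upperCentralSeries_one] at h3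
      have h4 : (⟨b2, b2_mem⟩ : B (ZMod p)) ∈ Subgroup.center (B (ZMod p)) := by
        rw [h3]; trivial
      have h5 := Subgroup.mem_center_iff.mp h4 ⟨b1, b1_mem⟩
      exact b1_b2_ne (congrArg Subtype.val h5)
    omega
  · rw [eq_bot_iff]
    intro x hx
    exact A_inf_B hx.1 hx.2
  · intro B₀ hB₀ hcomm h
    have hU : (eU : G (ZMod p)) ∈ ⁅B (ZMod p), B (ZMod p)⁆ := by
      have : (eU : G (ZMod p)) = ⁅(eX : G (ZMod p)), eY⁆ := by
        rw [commutatorElement_def, eU_eq]
        group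
      rw [this]
      exact Subgroup.commutator_mem_commutator eX_mem eY_mem
    have key : ∀ a a' b : G (ZMod p), a ∈ A (ZMod p) → a' ∈ A (ZMod p) → b ∈ B (ZMod p) →
        eU * a = a' * b → b ∈ B₀ := by
      intro a a' b ha ha' hb hab
      have hmem : b ∈ A (ZMod p) ⊔ ⁅B (ZMod p), B (ZMod p)⁆ := by
        have : b = a'⁻¹ * (eU * a) := by rw [hab]; group
        rw [this]
        exact Subgroup.mul_mem _ (Subgroup.mem_sup_left (Subgroup.inv_mem _ ha'))
          (Subgroup.mul_mem _ (Subgroup.mem_sup_right hU) (Subgroup.mem_sup_left ha))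
      obtain ⟨α, hα, β, hβ, hαβ⟩ := (h b).mp hmem
      have hαB : α ∈ B (ZMod p) := by
        have : α = b * β⁻¹ := by rw [hαβ]; group
        rw [this]
        exact Subgroup.mul_mem _ hb (Subgroup.inv_mem _ (hB₀ hβ))
      rw [hαβ, A_inf_B hα hαB, one_mul]
      exact hβ
    have h1 := key _ _ _ eA_mem a1_mem b1_mem b1_eq
    have h2 := key _ _ _ eC_mem a2_mem b2_mem b2_eq
    exact b1_b2_ne (congrArg Subtype.val (hcomm.is_comm.comm (⟨b1, h1⟩ : B₀) ⟨b2, h2⟩))

end Pool.Agent.Results.MP_c57c58_al.Counterexample
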